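import Pool.Agent.COV.StmtsA

/-! Row GDR of table covm (squad COV, MP_160b6c_nt), by helper46: derivations of an algebraically
closed field killing three given elements and dual to four of seven algebraically independent
elements. -/

namespace Pool.Agent.COV.H46

open KaehlerDifferential TensorProduct

open scoped IntermediateField.algebraAdjoinAdjoin in
/-- A derivation with prescribed values on a transcendence basis. -/
lemma exDer {L : Type} [Field L] [Algebra ℚ L] {ι : Type} {x : ι → L}
    (hx : IsTranscendenceBasis ℚ x) (f : ι → L) :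
    ∃ δ : Derivation ℚ L L, ∀ i, δ (x i) = f i := by
  classical
  have : Algebra.FormallyEtale (Algebra.adjoin ℚ (Set.range x))
      (IntermediateField.adjoin ℚ (Set.range x)) :=
    .of_isLocalization (nonZeroDivisors _)
  have : Algebra.IsAlgebraic (IntermediateField.adjoin ℚ (Set.range x)) L :=
    hx.isAlgebraic_field
  have : Algebra.FormallyEtale (IntermediateField.adjoin ℚ (Set.range x)) L :=
    Algebra.FormallyEtale.of_isSeparable _ L
  have : Algebra.FormallyEtale (Algebra.adjoin ℚ (Set.range x)) L :=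
    .comp _ (IntermediateField.adjoin ℚ (Set.range x)) _
  -- the derivation on the polynomial ring
  let _ : Module (MvPolynomial ι ℚ) L := Module.compHom L (MvPolynomial.aeval x).toRingHom
  have hsm : ∀ (p : MvPolynomial ι ℚ) (y : L), p • y = (MvPolynomial.aeval x p) * y :=
    fun p y => rfl
  have : IsScalarTower ℚ (MvPolynomial ι ℚ) L := by
    refine ⟨fun q p y => ?_⟩
    rw [hsm, hsm, map_smul, smul_mul_assoc]
  let d0 : Derivation ℚ (MvPolynomial ι ℚ) L := MvPolynomial.mkDerivation ℚ f
  let e := hx.1.aevalEquiv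
  have he : ∀ a : Algebra.adjoin ℚ (Set.range x), MvPolynomial.aeval x (e.symm a) = (a : L) := by
    intro a
    have h1 := hx.1.algebraMap_aevalEquiv (e.symm a)
    have h2 : hx.1.aevalEquiv (e.symm a) = a := e.apply_symm_apply a
    rw [h2] at h1
    exact h1.symm
  let d : Derivation ℚ (Algebra.adjoin ℚ (Set.range x)) L :=
    Derivation.mk' ((d0 : MvPolynomial ι ℚ →ₗ[ℚ] L) ∘ₗ e.symm.toLinearMap) (by
      intro a b
      show d0 (e.symm (a * b)) = a • d0 (e.symm b) + b • d0 (e.symm a)
      rw [map_mul, Derivation.leibniz, hsm, hsm, he, he]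
      rfl)
  let φ : Ω[Algebra.adjoin ℚ (Set.range x)⁄ℚ] →ₗ[Algebra.adjoin ℚ (Set.range x)] L :=
    d.liftKaehlerDifferential
  let Φ : Ω[L⁄ℚ] →ₗ[L] L := (LinearMap.liftBaseChange L φ) ∘ₗ
    (tensorKaehlerEquivOfFormallyEtale ℚ (Algebra.adjoin ℚ (Set.range x)) L).symm.toLinearMap
  refine ⟨Φ.compDer (KaehlerDifferential.D ℚ L), fun i => ?_⟩
  have h3 : x i = algebraMap (Algebra.adjoin ℚ (Set.range x)) L
      ⟨x i, Algebra.subset_adjoin ⟨i, rfl⟩⟩ := rfl
  have h4 : Φ (KaehlerDifferential.D ℚ L (x i)) = f i := by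
    rw [h3]
    show (LinearMap.liftBaseChange L φ) ((tensorKaehlerEquivOfFormallyEtale ℚ
      (Algebra.adjoin ℚ (Set.range x)) L).symm (KaehlerDifferential.D ℚ L _)) = f i
    rw [tensorKaehlerEquivOfFormallyEtale_symm_D_algebraMap]
    rw [LinearMap.liftBaseChange_tmul, one_smul]
    show d.liftKaehlerDifferential _ = f i
    rw [Derivation.liftKaehlerDifferential_comp_D]
    show d0 (e.symm ⟨x i, _⟩) = f i
    have h5 : e.symm ⟨x i, Algebra.subset_adjoin ⟨i, rfl⟩⟩ = MvPolynomial.X i := by
      rw [AlgEquiv.symm_apply_eq]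
      apply Subtype.ext
      have h6 := hx.1.algebraMap_aevalEquiv (MvPolynomial.X i)
      rw [MvPolynomial.aeval_X] at h6
      exact h6.symm
    rw [h5]
    exact MvPolynomial.mkDerivation_X ℚ f i
  exact h4

/-- Differentials of algebraically independent elements are linearly independent. -/
lemma liD {L : Type} [Field L] [Algebra ℚ L] (a : Fin 7 → L) (ha : AlgebraicIndependent ℚ a) :
    LinearIndependent L (fun i => KaehlerDifferential.D ℚ L (a i)) := by
  classical
  have ha' : AlgebraicIndepOn ℚ id (Set.range a) := ha.coe_range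
  obtain ⟨t, hst, ht⟩ := exists_isTranscendenceBasis_superset ha'
  rw [Fintype.linearIndependent_iff]
  intro g hg j
  obtain ⟨δ, hδ⟩ := exDer ht (fun y => if (y : L) = a j then 1 else 0)
  have h1 : δ.liftKaehlerDifferential (∑ i, g i • KaehlerDifferential.D ℚ L (a i)) = 0 := by
    rw [hg, map_zero]
  rw [map_sum, Finset.sum_eq_single j] at h1
  · rw [map_smul, Derivation.liftKaehlerDifferential_comp_D] at h1
    have h2 := hδ ⟨a j, hst ⟨j, rfl⟩⟩
    simp only [if_true] at h2
    rw [h2, smul_eq_mul, mul_one] at h1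
    exact h1
  · intro i _ hij
    rw [map_smul, Derivation.liftKaehlerDifferential_comp_D]
    have h2 := hδ ⟨a i, hst ⟨i, rfl⟩⟩
    simp only at h2
    rw [if_neg (fun h => hij (ha.injective h))] at h2
    rw [h2, smul_zero]
  · intro h
    exact absurd (Finset.mem_univ j) h

theorem gdr : GdrStmt := by
  classical
  intro L _ _ _ a b ha
  have hli := liD a ha
  let W : Submodule L (Ω[L⁄ℚ]) :=
    Submodule.span L (Set.range (fun l => KaehlerDifferential.D ℚ L (b l)))
  let U : Submodule L (Ω[L⁄ℚ]) :=
    Submodule.span L (Set.range (fun i => KaehlerDifferential.D ℚ L (a i)))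
  have hU : Module.finrank L U = 7 := by
    have := finrank_span_eq_card hli
    rw [Fintype.card_fin] at this
    exact this
  have hW : Module.finrank L W ≤ 3 := by
    have := finrank_range_le_card (R := L) (fun l => KaehlerDifferential.D ℚ L (b l))
    rw [Fintype.card_fin] at this
    exact this
  have : FiniteDimensional L W := FiniteDimensional.span_of_finite L (Set.finite_range _)
  have : FiniteDimensional L U := FiniteDimensional.span_of_finite L (Set.finite_range _)
  let v : Fin 7 → (Ω[L⁄ℚ]) ⧸ W := fun i => W.mkQ (KaehlerDifferential.D ℚ L (a i))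
  let g : U →ₗ[L] (Ω[L⁄ℚ]) ⧸ W := W.mkQ ∘ₗ U.subtype
  have hker : Module.finrank L (LinearMap.ker g) ≤ 3 := by
    refine le_trans ?_ hW
    let k : LinearMap.ker g →ₗ[L] W :=
      LinearMap.codRestrict W (U.subtype ∘ₗ (LinearMap.ker g).subtype) (by
        intro c
        have hc : W.mkQ ((c : U) : Ω[L⁄ℚ]) = 0 := c.2
        rw [← LinearMap.mem_ker, Submodule.ker_mkQ] at hc
        exact hc)
    apply LinearMap.finrank_le_finrank_of_injective (f := k)
    intro c d hcd
    have h1 : (((k c : W) : Ω[L⁄ℚ])) = (k d : W) := by rw [hcd]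
    exact Subtype.ext (Subtype.ext h1)
  have hrn := LinearMap.finrank_range_add_finrank_ker g
  have hran : LinearMap.range g = Submodule.span L (Set.range v) := by
    rw [LinearMap.range_comp, Submodule.range_subtype, Submodule.map_span, ← Set.range_comp]
    rfl
  rw [hU, hran] at hrn
  have h4 : 4 ≤ Module.finrank L (Submodule.span L (Set.range v)) := by omega
  have : FiniteDimensional L (Submodule.span L (Set.range v)) :=
    FiniteDimensional.span_of_finite L (Set.finite_range _)
  obtain ⟨f, hf, -, hfli⟩ := Submodule.exists_fun_fin_finrank_span_eq L (Set.range v)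
  choose e' he' using hf
  let e : Fin 4 → Fin 7 := fun i => e' (Fin.castLE h4 i)
  have hw : LinearIndependent L (fun i => v (e i)) := by
    have h5 := hfli.comp (Fin.castLE h4) (Fin.castLE_injective h4)
    have h6 : (fun i => v (e i)) = f ∘ Fin.castLE h4 := by
      funext i
      exact he' (Fin.castLE h4 i)
    rw [h6]
    exact h5
  obtain ⟨G, hG⟩ := LinearMap.exists_leftInverse_of_injective
    (Finsupp.linearCombination L (fun i => v (e i))) (LinearMap.ker_eq_bot.mpr hw)
  let ψ : Fin 4 → ((Ω[L⁄ℚ]) ⧸ W) →ₗ[L] L := fun i => (Finsupp.lapply i) ∘ₗ G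
  have hψ : ∀ i m, ψ i (v (e m)) = if i = m then 1 else 0 := by
    intro i m
    have h7 : G (v (e m)) = Finsupp.single m 1 := by
      have h8 := LinearMap.congr_fun hG (Finsupp.single m 1)
      rw [LinearMap.comp_apply, Finsupp.linearCombination_single, one_smul] at h8
      exact h8
    show (G (v (e m))) i = _
    rw [h7, Finsupp.single_apply]
    by_cases him : m = i
    · rw [if_pos him, if_pos him.symm]
    · rw [if_neg him, if_neg (fun h => him h.symm)]
  refine ⟨e, fun i => (ψ i ∘ₗ W.mkQ).compDer (KaehlerDifferential.D ℚ L), ?_, ?_⟩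
  · intro i l
    show ψ i (W.mkQ (KaehlerDifferential.D ℚ L (b l))) = 0
    have h9 : W.mkQ (KaehlerDifferential.D ℚ L (b l)) = 0 := by
      rw [← LinearMap.mem_ker, Submodule.ker_mkQ]
      exact Submodule.subset_span ⟨l, rfl⟩
    rw [h9, map_zero]
  · intro i m
    exact hψ i m

end Pool.Agent.COV.H46
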